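import Pool.Agent.Helper39.CR.GoalsT

/-!
# Packet CAR3-TKD: the connecting maps of the graded parts are `1 - shift`
-/

open scoped ComplexOrder ZeroAtInfty
open TopologicalSpace

namespace Pool.Agent.Helper99.CR

open Pool.Agent.Helper34.CAR Pool.Agent.Helper39.CR

noncomputable section

/-! ## Corner embeddings along injective maps of index sets -/

section emb

variable {A I B : Type}

/-- `X` vanishes outside `U × U`. -/
def Lives [CStarAlgebra B] (X : Mt I B) (U : Set I) : Prop :=
  ∀ p q, (p ∉ U ∨ q ∉ U) → X p q = 0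

open Classical in
/-- The matrix with entries `a c d` at the places `(j c, j d)`. -/
def embF [CStarAlgebra B] (j : A → I) (a : Mt A B) : Mt I B :=
  Mt.of fun p q => if h : ∃ c, j c = p then if h' : ∃ d, j d = q then
    a h.choose h'.choose else 0 else 0

variable [Fintype A] [DecidableEq A] [Fintype I] [DecidableEq I] [CStarAlgebra B]

theorem lives_mul {X Y : Mt I B} {U V : Set I} (hX : Lives X U) (hY : Lives Y V)
    (h : Disjoint U V) : X * Y = 0 := by
  ext p q
  rw [Mt.mul_apply, Mt.zero_apply]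
  refine Finset.sum_eq_zero fun r _ => ?_
  by_cases hr : r ∈ U
  · rw [hY r q (Or.inl fun h1 => (Set.disjoint_left.1 h) hr h1), mul_zero]
  · rw [hX p r (Or.inr hr), zero_mul]

theorem lives_single (p : I) (b : B) : Lives (Mt.single p p b : Mt I B) {p} := by
  intro q r h
  rw [Mt.single_apply, if_neg]
  rintro ⟨h1, h2⟩
  rcases h with h | h
  · exact h h1
  · exact h h2

omit [Fintype A] [DecidableEq A] [Fintype I] [DecidableEq I] in
theorem embF_apply {j : A → I} (hj : Function.Injective j) (a : Mt A B) (c d : A) :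
    embF j a (j c) (j d) = a c d := by
  have h1 : ∃ c', j c' = j c := ⟨c, rfl⟩
  have h2 : ∃ d', j d' = j d := ⟨d, rfl⟩
  unfold embF
  rw [Mt.of_apply, dif_pos h1, dif_pos h2, hj h1.choose_spec, hj h2.choose_spec]

omit [Fintype A] [DecidableEq A] [Fintype I] [DecidableEq I] in
theorem lives_emb (j : A → I) (a : Mt A B) : Lives (embF j a) (Set.range j) := by
  intro p q h
  unfold embF
  rw [Mt.of_apply]
  by_cases h1 : ∃ c, j c = p
  · by_cases h2 : ∃ d, j d = q
    · rcases h with h | h
      · exact absurd h1 h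
      · exact absurd h2 h
    · rw [dif_pos h1, dif_neg h2]
  · rw [dif_neg h1]

/-- The corner embedding as a *-homomorphism. -/
def emb (j : A → I) (hj : Function.Injective j) : Mt A B →⋆ₙₐ[ℂ] Mt I B where
  toFun a := embF j a
  map_smul' c a := by
    ext p q
    rw [Mt.smul_apply]
    simp only [embF, Mt.of_apply]
    split_ifs <;> simp
  map_zero' := by
    ext p q
    simp only [embF, Mt.of_apply]
    split_ifs <;> simp
  map_add' a b := by
    ext p q
    rw [Mt.add_apply]
    simp only [embF, Mt.of_apply]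
    split_ifs <;> simp
  map_mul' a b := by
    ext p q
    rw [Mt.mul_apply]
    by_cases hp : ∃ c, j c = p
    · by_cases hq : ∃ d, j d = q
      · obtain ⟨c, rfl⟩ := hp
        obtain ⟨d, rfl⟩ := hq
        rw [embF_apply hj, Mt.mul_apply]
        refine Fintype.sum_of_injective j hj _ _ (fun r hr => ?_) (fun r => ?_)
        · rw [lives_emb j a (j c) r (Or.inr hr), zero_mul]
        · rw [embF_apply hj, embF_apply hj]
      · rw [lives_emb j (a * b) p q (Or.inr hq)]
        refine (Finset.sum_eq_zero fun r _ => ?_).symm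
        rw [lives_emb j b r q (Or.inr hq), mul_zero]
    · rw [lives_emb j (a * b) p q (Or.inl hp)]
      refine (Finset.sum_eq_zero fun r _ => ?_).symm
      rw [lives_emb j a p r (Or.inl hp), zero_mul]
  map_star' a := by
    ext p q
    rw [Mt.star_apply]
    simp only [embF, Mt.of_apply]
    split_ifs <;> simp

theorem emb_eq (j : A → I) (hj : Function.Injective j) (a : Mt A B) :
    emb j hj a = embF j a := rfl

end emb

/-- Factorization of a *-homomorphism through an injective one. -/
theorem factor {A C D : Type} [NonUnitalCStarAlgebra A] [NonUnitalCStarAlgebra C]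
    [NonUnitalCStarAlgebra D] (f : A →⋆ₙₐ[ℂ] C) (m : D →⋆ₙₐ[ℂ] C) (hm : Function.Injective m)
    (h : ∀ a, ∃ d, m d = f a) : ∃ g : A →⋆ₙₐ[ℂ] D, ∀ a, m (g a) = f a := by
  choose g hg using h
  refine ⟨{ toFun := g
            map_smul' := fun c a => hm ?_
            map_zero' := hm ?_
            map_add' := fun a b => hm ?_
            map_mul' := fun a b => hm ?_
            map_star' := fun a => hm ?_ }, hg⟩
  · rw [hg]
    simp only [MonoidHom.id_apply]
    rw [map_smul, map_smul, hg]
  · rw [hg, map_zero, map_zero]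
  · rw [hg, map_add, map_add, hg, hg]
  · rw [hg, map_mul, map_mul, hg, hg]
  · rw [hg, map_star, map_star, hg]

theorem tkd (hz : S_TZ) (ha : S_TADD) : S_TKD := by
  intro T i B _ _ θ s hθ n k y x
  obtain ⟨hz1, hz2, hz3⟩ := hz T
  obtain ⟨hc, -, -, h00, h11, hoff, hsc, -⟩ := s.step k
  rcases subsingleton_or_nontrivial B with hB | hB
  · have hG : T.Zero (Gd B (wz s n (k + 1))) := by
      refine hz2 _ fun a => ?_
      apply Subtype.ext
      ext p q
      exact Subsingleton.elim _ _
    rw [hG i y, map_zero, map_zero, map_zero, map_zero, sub_zero]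
  -- the index maps
  let p0 : s.S (k + 1) := (s.e k).symm (x, s.c0 k)
  let p1 : s.S (k + 1) := (s.e k).symm (x, s.c1 k)
  let jr : {c : s.C k // c ≠ s.c0 k ∧ c ≠ s.c1 k} → s.S (k + 1) :=
    fun c => (s.e k).symm (x, c.1)
  have hjr : Function.Injective jr := by
    intro c d h
    have h1 := (s.e k).symm.injective h
    exact Subtype.ext (Prod.ext_iff.1 h1).2
  -- the compression of `K` to the remaining indices
  let r : B →⋆ₙₐ[ℂ] Mt {c : s.C k // c ≠ s.c0 k ∧ c ≠ s.c1 k} B :=
    { toFun := fun b => Mt.of fun c d => s.K k b c.1 d.1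
      map_smul' := fun c a => by
        ext c d
        simp only [Mt.of_apply, Mt.smul_apply, MonoidHom.id_apply, map_smul]
      map_zero' := by
        ext c d
        simp only [Mt.of_apply, Mt.zero_apply, map_zero]
      map_add' := fun a b => by
        ext c d
        simp only [Mt.of_apply, Mt.add_apply, map_add]
      map_mul' := fun a b => by
        ext c d
        rw [Mt.mul_apply]
        simp only [Mt.of_apply]
        rw [map_mul, Mt.mul_apply]
        refine (Fintype.sum_of_injective Subtype.val Subtype.val_injective _ _ (fun e he => ?_)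
          (fun e => rfl)).symm
        have h1 : e = s.c0 k ∨ e = s.c1 k := by
          by_contra h2
          push Not at h2
          exact he ⟨⟨e, h2⟩, rfl⟩
        rw [hoff a c.1 e ?_ ?_, zero_mul]
        · rcases h1 with h1 | h1
          · rw [h1]; exact c.2.1
          · rw [h1]; exact c.2.2
        · rcases h1 with h1 | h1
          · exact Or.inr (Or.inr (Or.inl h1))
          · exact Or.inr (Or.inr (Or.inr h1))
      map_star' := fun a => by
        ext c d
        rw [Mt.star_apply]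
        simp only [Mt.of_apply]
        rw [map_star, Mt.star_apply] }
  have hr : ∀ b c d, r b c d = s.K k b c.1 d.1 := fun b c d => rfl
  let m : Mt {c : s.C k // c ≠ s.c0 k ∧ c ≠ s.c1 k} ℂ →⋆ₙₐ[ℂ]
      Mt {c : s.C k // c ≠ s.c0 k ∧ c ≠ s.c1 k} B :=
    ((Mt.map (StarAlgHom.ofId ℂ B) : Mt {c : s.C k // c ≠ s.c0 k ∧ c ≠ s.c1 k} ℂ →⋆ₐ[ℂ]
      Mt {c : s.C k // c ≠ s.c0 k ∧ c ≠ s.c1 k} B) :
      Mt {c : s.C k // c ≠ s.c0 k ∧ c ≠ s.c1 k} ℂ →⋆ₙₐ[ℂ]
      Mt {c : s.C k // c ≠ s.c0 k ∧ c ≠ s.c1 k} B)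
  have hma : ∀ a c d, m a c d = algebraMap ℂ B (a c d) := fun a c d => rfl
  have hm : Function.Injective m := by
    intro a b h
    ext c d
    have h1 : m a c d = m b c d := by rw [h]
    rw [hma, hma] at h1
    exact (algebraMap ℂ B).injective h1
  obtain ⟨g, hg⟩ := factor r m hm (by
    intro b
    have h1 : ∀ c d : {c : s.C k // c ≠ s.c0 k ∧ c ≠ s.c1 k}, ∃ z : ℂ,
        s.K k b c.1 d.1 = algebraMap ℂ B z := fun c d =>
      hsc b c.1 d.1 c.2.1 c.2.2 d.2.1 d.2.2
    choose z hz using h1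
    refine ⟨Mt.of z, ?_⟩
    ext c d
    rw [hma, Mt.of_apply, hr, hz])
  -- the embedding of the scalar matrices
  have hwt : ∀ c : {c : s.C k // c ≠ s.c0 k ∧ c ≠ s.c1 k}, s.wt (k + 1) (jr c) = s.wt k x := by
    intro c
    change s.wt k (s.e k ((s.e k).symm (x, c.1))).1 +
      (if (s.e k ((s.e k).symm (x, c.1))).2 = s.c0 k then 1 else 0) = s.wt k x
    rw [Equiv.apply_symm_apply, if_neg c.2.1, add_zero]
  have hmem : ∀ a : Mt {c : s.C k // c ≠ s.c0 k ∧ c ≠ s.c1 k} ℂ,
      emb jr hjr (m a) ∈ grd B (wz s n (k + 1)) := by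
    intro a p q hpq
    rw [emb_eq]
    by_cases hp : ∃ c, jr c = p
    · by_cases hq : ∃ d, jr d = q
      · obtain ⟨c, rfl⟩ := hp
        obtain ⟨d, rfl⟩ := hq
        refine absurd ?_ hpq
        change ((s.wt (k + 1) (jr c) : ℕ) : ZMod n) = ((s.wt (k + 1) (jr d) : ℕ) : ZMod n)
        rw [hwt, hwt]
      · exact lives_emb jr (m a) p q (Or.inr hq)
    · exact lives_emb jr (m a) p q (Or.inl hp)
  let h : Mt {c : s.C k // c ≠ s.c0 k ∧ c ≠ s.c1 k} ℂ →⋆ₙₐ[ℂ] Gd B (wz s n (k + 1)) :=
    { toFun := fun a => ⟨emb jr hjr (m a), hmem a⟩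
      map_smul' := fun c a => Subtype.ext (by
        change emb jr hjr (m (c • a)) = c • emb jr hjr (m a)
        rw [map_smul, map_smul])
      map_zero' := Subtype.ext (by
        change emb jr hjr (m 0) = 0
        rw [map_zero, map_zero])
      map_add' := fun a b => Subtype.ext (by
        change emb jr hjr (m (a + b)) = emb jr hjr (m a) + emb jr hjr (m b)
        rw [map_add, map_add])
      map_mul' := fun a b => Subtype.ext (by
        change emb jr hjr (m (a * b)) = emb jr hjr (m a) * emb jr hjr (m b)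
        rw [map_mul, map_mul])
      map_star' := fun a => Subtype.ext (by
        change emb jr hjr (m (star a)) = star (emb jr hjr (m a))
        rw [map_star, map_star]) }
  let θ' : B →⋆ₙₐ[ℂ] B := (θ : B →⋆ₙₐ[ℂ] B)
  let f0 : B →⋆ₙₐ[ℂ] Gd B (wz s n (k + 1)) := (cd B (wz s n (k + 1)) p0).comp θ'
  let f1 : B →⋆ₙₐ[ℂ] Gd B (wz s n (k + 1)) := cd B (wz s n (k + 1)) p1
  let f2 : B →⋆ₙₐ[ℂ] Gd B (wz s n (k + 1)) := h.comp g
  have v0 : ∀ b, ((f0 b : Gd B (wz s n (k + 1))) : Mt (s.S (k + 1)) B) =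
      Mt.single p0 p0 (θ b) := fun b => rfl
  have v1 : ∀ b, ((f1 b : Gd B (wz s n (k + 1))) : Mt (s.S (k + 1)) B) =
      Mt.single p1 p1 b := fun b => rfl
  have v2 : ∀ b, ((f2 b : Gd B (wz s n (k + 1))) : Mt (s.S (k + 1)) B) =
      embF jr (r b) := by
    intro b
    change embF jr (m (g b)) = embF jr (r b)
    rw [hg]
  have L0 : ∀ b, Lives ((f0 b : Gd B (wz s n (k + 1))) : Mt (s.S (k + 1)) B) {p0} := by
    intro b; rw [v0]; exact lives_single _ _
  have L1 : ∀ b, Lives ((f1 b : Gd B (wz s n (k + 1))) : Mt (s.S (k + 1)) B) {p1} := by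
    intro b; rw [v1]; exact lives_single _ _
  have L2 : ∀ b, Lives ((f2 b : Gd B (wz s n (k + 1))) : Mt (s.S (k + 1)) B)
      (Set.range jr) := by
    intro b; rw [v2]; exact lives_emb _ _
  have D01 : Disjoint ({p0} : Set (s.S (k + 1))) {p1} := by
    rw [Set.disjoint_singleton]
    intro h1
    have h2 := (s.e k).symm.injective h1
    exact hc (Prod.ext_iff.1 h2).2
  have D02 : Disjoint ({p0} : Set (s.S (k + 1))) (Set.range jr) := by
    rw [Set.disjoint_singleton_left]
    rintro ⟨c, h1⟩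
    have h2 := (s.e k).symm.injective h1
    exact c.2.1 (Prod.ext_iff.1 h2).2
  have D12 : Disjoint ({p1} : Set (s.S (k + 1))) (Set.range jr) := by
    rw [Set.disjoint_singleton_left]
    rintro ⟨c, h1⟩
    have h2 := (s.e k).symm.injective h1
    exact c.2.2 (Prod.ext_iff.1 h2).2
  have hadd := ha T i B (Gd B (wz s n (k + 1))) (Fin 3) ![f0, f1, f2]
    ((kd s n k).comp (cd B (wz s n k) x)) (by
      intro u v huv a b
      apply Subtype.ext
      fin_cases u <;> fin_cases v
      · exact absurd rfl huv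
      · exact lives_mul (L0 a) (L1 b) D01
      · exact lives_mul (L0 a) (L2 b) D02
      · exact lives_mul (L1 a) (L0 b) D01.symm
      · exact absurd rfl huv
      · exact lives_mul (L1 a) (L2 b) D12
      · exact lives_mul (L2 a) (L0 b) D02.symm
      · exact lives_mul (L2 a) (L1 b) D12.symm
      · exact absurd rfl huv) (by
      intro b
      rw [Fin.sum_univ_three]
      apply Subtype.ext
      change s.κ k (Mt.single x x b) = ((f0 b : Gd B (wz s n (k + 1))) : Mt (s.S (k + 1)) B) +
        ((f1 b : Gd B (wz s n (k + 1))) : Mt (s.S (k + 1)) B) +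
        ((f2 b : Gd B (wz s n (k + 1))) : Mt (s.S (k + 1)) B)
      ext p q
      obtain ⟨⟨x1, c⟩, rfl⟩ := (s.e k).symm.surjective p
      obtain ⟨⟨x2, d⟩, rfl⟩ := (s.e k).symm.surjective q
      rw [Sys.κ_apply, Equiv.apply_symm_apply, Equiv.apply_symm_apply, Mt.add_apply,
        Mt.add_apply]
      simp only
      have n0 : ∀ c, c ≠ s.c0 k → (s.e k).symm (x, c) ∉ ({p0} : Set (s.S (k + 1))) :=
        fun c h1 h2 => h1 (Prod.ext_iff.1 ((s.e k).symm.injective h2)).2
      have n1 : ∀ c, c ≠ s.c1 k → (s.e k).symm (x, c) ∉ ({p1} : Set (s.S (k + 1))) :=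
        fun c h1 h2 => h1 (Prod.ext_iff.1 ((s.e k).symm.injective h2)).2
      have n2 : ∀ c, (c = s.c0 k ∨ c = s.c1 k) → (s.e k).symm (x, c) ∉ Set.range jr := by
        rintro c h1 ⟨c', h2⟩
        have h3 : c'.1 = c := (Prod.ext_iff.1 ((s.e k).symm.injective h2)).2
        rcases h1 with h1 | h1
        · exact c'.2.1 (h3.trans h1)
        · exact c'.2.2 (h3.trans h1)
      by_cases hx : x1 = x ∧ x2 = x
      · obtain ⟨hx1, hx2⟩ := hx
        rw [hx1, hx2, Mt.single_apply, if_pos ⟨rfl, rfl⟩]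
        have z0 : (c ≠ s.c0 k ∨ d ≠ s.c0 k) → ((f0 b : Gd B (wz s n (k + 1))) :
            Mt (s.S (k + 1)) B) ((s.e k).symm (x, c)) ((s.e k).symm (x, d)) = 0 := fun h1 =>
          L0 b _ _ (h1.imp (n0 c) (n0 d))
        have z1 : (c ≠ s.c1 k ∨ d ≠ s.c1 k) → ((f1 b : Gd B (wz s n (k + 1))) :
            Mt (s.S (k + 1)) B) ((s.e k).symm (x, c)) ((s.e k).symm (x, d)) = 0 := fun h1 =>
          L1 b _ _ (h1.imp (n1 c) (n1 d))
        have z2 : ((c = s.c0 k ∨ c = s.c1 k) ∨ (d = s.c0 k ∨ d = s.c1 k)) →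
            ((f2 b : Gd B (wz s n (k + 1))) : Mt (s.S (k + 1)) B) ((s.e k).symm (x, c))
              ((s.e k).symm (x, d)) = 0 := fun h1 =>
          L2 b _ _ (h1.imp (n2 c) (n2 d))
        by_cases hc0 : c = s.c0 k
        · have hc1 : c ≠ s.c1 k := fun h1 => hc (hc0.symm.trans h1)
          rw [z1 (Or.inl hc1), z2 (Or.inl (Or.inl hc0)), add_zero, add_zero]
          by_cases hd0 : d = s.c0 k
          · rw [v0, hc0, hd0, h00, Mt.single_apply, if_pos ⟨rfl, rfl⟩]
          · rw [z0 (Or.inr hd0)]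
            exact hoff b c d (fun h1 => hd0 (h1.symm.trans hc0)) (Or.inl hc0)
        · rw [z0 (Or.inl hc0), zero_add]
          by_cases hc1 : c = s.c1 k
          · rw [z2 (Or.inl (Or.inr hc1)), add_zero]
            by_cases hd1 : d = s.c1 k
            · rw [v1, hc1, hd1, h11, Mt.single_apply, if_pos ⟨rfl, rfl⟩]
            · rw [z1 (Or.inr hd1)]
              exact hoff b c d (fun h1 => hd1 (h1.symm.trans hc1)) (Or.inr (Or.inl hc1))
          · rw [z1 (Or.inl hc1), zero_add]
            by_cases hd0 : d = s.c0 k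
            · rw [z2 (Or.inr (Or.inl hd0))]
              exact hoff b c d (fun h1 => hc0 (h1.trans hd0)) (Or.inr (Or.inr (Or.inl hd0)))
            · by_cases hd1 : d = s.c1 k
              · rw [z2 (Or.inr (Or.inr hd1))]
                exact hoff b c d (fun h1 => hc1 (h1.trans hd1)) (Or.inr (Or.inr (Or.inr hd1)))
              · rw [v2]
                exact (embF_apply hjr (r b) ⟨c, hc0, hc1⟩ ⟨d, hd0, hd1⟩).symm
      · have m0 : ∀ (x' : s.S k) c, x' ≠ x → (s.e k).symm (x', c) ∉ ({p0} : Set (s.S (k + 1))) :=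
          fun x' c h1 h2 => h1 (Prod.ext_iff.1 ((s.e k).symm.injective h2)).1
        have m1 : ∀ (x' : s.S k) c, x' ≠ x → (s.e k).symm (x', c) ∉ ({p1} : Set (s.S (k + 1))) :=
          fun x' c h1 h2 => h1 (Prod.ext_iff.1 ((s.e k).symm.injective h2)).1
        have m2 : ∀ (x' : s.S k) c, x' ≠ x → (s.e k).symm (x', c) ∉ Set.range jr := by
          rintro x' c h1 ⟨c', h2⟩
          exact h1 (Prod.ext_iff.1 ((s.e k).symm.injective h2)).1.symm
        have hx' : x1 ≠ x ∨ x2 ≠ x := by
          by_contra h1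
          push Not at h1
          exact hx h1
        rw [L0 b _ _ (hx'.imp (m0 x1 c) (m0 x2 d)), L1 b _ _ (hx'.imp (m1 x1 c) (m1 x2 d)),
          L2 b _ _ (hx'.imp (m2 x1 c) (m2 x2 d)), Mt.single_apply, if_neg hx, map_zero,
          Mt.zero_apply, add_zero, add_zero]) y
  have hcomp := T.map_comp i B (Gd B (wz s n k)) (Gd B (wz s n (k + 1)))
    (cd B (wz s n k) x) (kd s n k) y
  rw [← hcomp, hadd, Fin.sum_univ_three]
  change T.map i f0 y + T.map i f1 y + T.map i f2 y = T.map i f1 y -
    T.map i (cd B (wz s n (k + 1)) p0) y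
  have e0 : T.map i f0 y = -(T.map i (cd B (wz s n (k + 1)) p0) y) := by
    change T.map i ((cd B (wz s n (k + 1)) p0).comp θ') y = _
    rw [T.map_comp]
    exact hθ θ' (fun b => rfl) _
  have e2 : T.map i f2 y = 0 := by
    change T.map i (h.comp g) y = _
    rw [T.map_comp]
    let u : {c : s.C k // c ≠ s.c0 k ∧ c ≠ s.c1 k} → {c : s.C k // c ≠ s.c0 k ∧ c ≠ s.c1 k} →
        ℂ →ₗ[ℂ] Mt {c : s.C k // c ≠ s.c0 k ∧ c ≠ s.c1 k} ℂ := fun p q =>
      { toFun := fun z => Mt.single p q z
        map_add' := fun z z' => by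
          ext a b
          rw [Mt.add_apply, Mt.single_apply, Mt.single_apply, Mt.single_apply]
          split_ifs <;> simp
        map_smul' := fun c z => by
          ext a b
          rw [Mt.smul_apply, Mt.single_apply, Mt.single_apply]
          split_ifs <;> simp }
    have hu : MUnits u := {
      mul := fun p q t a b => Mt.single_mul_single p q t a b
      mul0 := fun p q t l a b hqt => Mt.single_mul_single_ne hqt p l a b
      star := fun p q a => Mt.star_single p q a
      inj := fun p q a h1 => by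
        have h2 : (Mt.single p q a : Mt {c : s.C k // c ≠ s.c0 k ∧ c ≠ s.c1 k} ℂ) p q = 0 := by
          change (u p q a : Mt {c : s.C k // c ≠ s.c0 k ∧ c ≠ s.c1 k} ℂ) p q = 0
          rw [h1, Mt.zero_apply]
        rw [Mt.single_apply, if_pos ⟨rfl, rfl⟩] at h2
        exact h2
      span := fun X => ⟨fun p q => X p q, Mt.eq_sum_single X⟩ }
    rw [hz3 (Mt {c : s.C k // c ≠ s.c0 k ∧ c ≠ s.c1 k} ℂ) _ u hu i (T.map i h y), map_zero]
  rw [e0, e2]
  abel

end

end Pool.Agent.Helper99.CR
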